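import Mathlib

/-!
# Counting eigenvectors of two by two matrices over a finite field
-/

set_option autoImplicit false

namespace Pool.Agent.H302R4

open Matrix

section algebra

variable {F : Type*} [Field F]

/-- `v` is an eigenvector of `M` with eigenvalue `l` -/
def Ev (M : Matrix (Fin 2) (Fin 2) F) (l : F) (v : Fin 2 → F) : Prop := M *ᵥ v = l • v

/-- `v` is an eigenvector of `M` and `M` acts on the quotient by the same scalar -/
def Un (M : Matrix (Fin 2) (Fin 2) F) (l : F) (v : Fin 2 → F) : Prop :=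
  M *ᵥ v = l • v ∧ ∀ w, ∃ m : F, M *ᵥ w = l • w + m • v

lemma mulVec_two (M : Matrix (Fin 2) (Fin 2) F) (v : Fin 2 → F) (i : Fin 2) :
    (M *ᵥ v) i = M i 0 * v 0 + M i 1 * v 1 := by
  simp [Matrix.mulVec, dotProduct, Fin.sum_univ_two]

lemma ext_two {v w : Fin 2 → F} (h0 : v 0 = w 0) (h1 : v 1 = w 1) : v = w := by
  ext i; fin_cases i
  · exact h0
  · exact h1

lemma ne_zero_two {v : Fin 2 → F} (h : v ≠ 0) : v 0 ≠ 0 ∨ v 1 ≠ 0 := by
  by_contra hcon
  push Not at hcon
  exact h (ext_two hcon.1 hcon.2)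

lemma ev_sub_iff {M : Matrix (Fin 2) (Fin 2) F} {l : F} {v : Fin 2 → F} :
    Ev M l v ↔ (M - Matrix.scalar (Fin 2) l) *ᵥ v = 0 := by
  rw [Ev, Matrix.sub_mulVec, sub_eq_zero]
  have : (Matrix.scalar (Fin 2) l) *ᵥ v = l • v := by
    simp [Matrix.scalar_apply, ← Matrix.smul_one_eq_diagonal, Matrix.smul_mulVec]
  rw [this]

lemma scalar_mulVec' (l : F) (v : Fin 2 → F) : (Matrix.scalar (Fin 2) l) *ᵥ v = l • v := by
  simp [Matrix.scalar_apply, ← Matrix.smul_one_eq_diagonal, Matrix.smul_mulVec]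

lemma un_sub_iff {M : Matrix (Fin 2) (Fin 2) F} {l : F} {v : Fin 2 → F} :
    Un M l v ↔ ((M - Matrix.scalar (Fin 2) l) *ᵥ v = 0 ∧
      ∀ w, ∃ m : F, (M - Matrix.scalar (Fin 2) l) *ᵥ w = m • v) := by
  rw [Un, Matrix.sub_mulVec, sub_eq_zero, scalar_mulVec']
  constructor
  · rintro ⟨h1, h2⟩
    refine ⟨h1, fun w => ?_⟩
    obtain ⟨m, hm⟩ := h2 w
    refine ⟨m, ?_⟩
    rw [Matrix.sub_mulVec, scalar_mulVec', hm]; abel
  · rintro ⟨h1, h2⟩
    refine ⟨h1, fun w => ?_⟩
    obtain ⟨m, hm⟩ := h2 w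
    refine ⟨m, ?_⟩
    rw [Matrix.sub_mulVec, scalar_mulVec'] at hm
    rw [← hm]; abel

end algebra

section count

variable {F : Type*} [Field F] [Fintype F] [DecidableEq F]

open Classical in
/-- nonzero kernel vectors -/
noncomputable def kerCard (N : Matrix (Fin 2) (Fin 2) F) : ℕ :=
  (Finset.univ.filter fun v : Fin 2 → F => v ≠ 0 ∧ N *ᵥ v = 0).card

open Classical in
/-- nonzero vectors `v` killed by `N` and spanning a line containing the range of `N` -/
noncomputable def uniCard (N : Matrix (Fin 2) (Fin 2) F) : ℕ :=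
  (Finset.univ.filter fun v : Fin 2 → F => v ≠ 0 ∧ (N *ᵥ v = 0 ∧ ∀ w, ∃ m : F, N *ᵥ w = m • v)).card

lemma card_line {u : Fin 2 → F} (hu : u ≠ 0) :
    ((Finset.univ.filter fun t : F => t ≠ 0).image fun t => t • u).card = Fintype.card F - 1 := by
  rw [Finset.card_image_of_injOn]
  · rw [Finset.filter_ne' Finset.univ (0 : F), Finset.card_erase_of_mem (Finset.mem_univ _),
      Finset.card_univ]
  · intro s _ t _ h
    obtain ⟨i, hi⟩ := Function.ne_iff.mp hu
    have := congrFun h i
    simp only [Pi.smul_apply, smul_eq_mul] at this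
    exact mul_right_cancel₀ hi this

/-- a nonzero singular matrix has a one-dimensional kernel -/
lemma exists_ker {N : Matrix (Fin 2) (Fin 2) F} (hN : N ≠ 0)
    (hdet : N 0 0 * N 1 1 = N 0 1 * N 1 0) :
    ∃ u : Fin 2 → F, u ≠ 0 ∧ ∀ v, N *ᵥ v = 0 ↔ ∃ t : F, v = t • u := by
  have key : ∀ (a b c d : F), (a ≠ 0 ∨ b ≠ 0) → a * d = b * c →
      ∀ x y : F, (a * x + b * y = 0 ∧ c * x + d * y = 0) ↔ ∃ t : F, x = t * (-b) ∧ y = t * a := by
    intro a b c d hab hd x y
    constructor
    · rintro ⟨h1, -⟩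
      rcases hab with h | h
      · exact ⟨y / a, by field_simp; linear_combination h1, by field_simp⟩
      · exact ⟨-x / b, by field_simp, by field_simp; linear_combination h1⟩
    · rintro ⟨t, rfl, rfl⟩
      exact ⟨by ring, by linear_combination t * hd⟩
  by_cases h0 : N 0 0 ≠ 0 ∨ N 0 1 ≠ 0
  · refine ⟨![-N 0 1, N 0 0], ?_, fun v => ?_⟩
    · intro h
      have e0 := congrFun h 0
      have e1 := congrFun h 1
      simp at e0 e1
      rcases h0 with h | h
      · exact h e1
      · exact h e0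
    · have := key _ _ _ _ h0 hdet (v 0) (v 1)
      constructor
      · intro hv
        obtain ⟨t, h1, h2⟩ := this.mp ⟨by rw [← mulVec_two, hv]; rfl, by rw [← mulVec_two, hv]; rfl⟩
        exact ⟨t, ext_two (by simpa using h1) (by simpa using h2)⟩
      · rintro ⟨t, rfl⟩
        have h3 := this.mpr ⟨t, by simp, by simp⟩
        exact ext_two (by rw [mulVec_two]; exact h3.1) (by rw [mulVec_two]; exact h3.2)
  · push Not at h0
    have h1 : N 1 0 ≠ 0 ∨ N 1 1 ≠ 0 := by
      by_contra hcon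
      push Not at hcon
      apply hN
      ext i j
      fin_cases i <;> fin_cases j
      · exact h0.1
      · exact h0.2
      · exact hcon.1
      · exact hcon.2
    refine ⟨![-N 1 1, N 1 0], ?_, fun v => ?_⟩
    · intro h
      have e0 := congrFun h 0
      have e1 := congrFun h 1
      simp at e0 e1
      rcases h1 with h | h
      · exact h e1
      · exact h e0
    · have := key _ _ _ _ h1 (show N 1 0 * N 0 1 = N 1 1 * N 0 0 by linear_combination -hdet)
        (v 0) (v 1)
      constructor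
      · intro hv
        obtain ⟨t, h1, h2⟩ := this.mp ⟨by rw [← mulVec_two, hv]; rfl, by rw [← mulVec_two, hv]; rfl⟩
        exact ⟨t, ext_two (by simpa using h1) (by simpa using h2)⟩
      · rintro ⟨t, rfl⟩
        have h3 := this.mpr ⟨t, by simp, by simp⟩
        exact ext_two (by rw [mulVec_two]; exact h3.2) (by rw [mulVec_two]; exact h3.1)

lemma det_of_ker {N : Matrix (Fin 2) (Fin 2) F} {v : Fin 2 → F} (hv : v ≠ 0) (h : N *ᵥ v = 0) :
    N 0 0 * N 1 1 = N 0 1 * N 1 0 := by
  have e0 : N 0 0 * v 0 + N 0 1 * v 1 = 0 := by rw [← mulVec_two, h]; rfl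
  have e1 : N 1 0 * v 0 + N 1 1 * v 1 = 0 := by rw [← mulVec_two, h]; rfl
  rcases ne_zero_two hv with h0 | h1
  · apply mul_right_cancel₀ h0
    linear_combination N 1 1 * e0 - N 0 1 * e1
  · apply mul_right_cancel₀ h1
    linear_combination N 0 0 * e1 - N 1 0 * e0

lemma kerCard_eq {N : Matrix (Fin 2) (Fin 2) F} (hN : N ≠ 0) :
    kerCard N = if N 0 0 * N 1 1 = N 0 1 * N 1 0 then Fintype.card F - 1 else 0 := by
  classical
  split_ifs with hdet
  · obtain ⟨u, hu, h⟩ := exists_ker hN hdet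
    rw [← card_line hu, kerCard]
    congr 1
    ext v
    simp only [Finset.mem_filter, Finset.mem_univ, true_and, Finset.mem_image]
    constructor
    · rintro ⟨hv, hv2⟩
      obtain ⟨t, rfl⟩ := (h v).mp hv2
      refine ⟨t, ?_, rfl⟩
      rintro rfl
      exact hv (zero_smul _ _)
    · rintro ⟨t, ht, rfl⟩
      exact ⟨smul_ne_zero ht hu, (h _).mpr ⟨t, rfl⟩⟩
  · rw [kerCard, Finset.card_eq_zero, Finset.filter_eq_empty_iff]
    rintro v - ⟨hv, h⟩
    exact hdet (det_of_ker hv h)

lemma uniCard_eq {N : Matrix (Fin 2) (Fin 2) F} (hN : N ≠ 0) :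
    uniCard N = if N 0 0 * N 1 1 = N 0 1 * N 1 0 ∧ N 0 0 + N 1 1 = 0
      then Fintype.card F - 1 else 0 := by
  classical
  split_ifs with hdet
  · obtain ⟨hdet, htr⟩ := hdet
    obtain ⟨u, hu, h⟩ := exists_ker hN hdet
    -- the range of N is in the kernel of N
    have hsq : ∀ w, N *ᵥ (N *ᵥ w) = 0 := by
      intro w
      apply ext_two
      · rw [mulVec_two, mulVec_two, mulVec_two, Pi.zero_apply]
        linear_combination (N 0 0 * w 0 + N 0 1 * w 1) * htr - w 0 * hdet
      · rw [mulVec_two, mulVec_two, mulVec_two, Pi.zero_apply]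
        linear_combination (N 1 0 * w 0 + N 1 1 * w 1) * htr - w 1 * hdet
    rw [← card_line hu, uniCard]
    congr 1
    ext v
    simp only [Finset.mem_filter, Finset.mem_univ, true_and, Finset.mem_image]
    constructor
    · rintro ⟨hv, hv2, -⟩
      obtain ⟨t, rfl⟩ := (h v).mp hv2
      refine ⟨t, ?_, rfl⟩
      rintro rfl
      exact hv (zero_smul _ _)
    · rintro ⟨t, ht, rfl⟩
      refine ⟨smul_ne_zero ht hu, (h _).mpr ⟨t, rfl⟩, fun w => ?_⟩
      obtain ⟨s, hs⟩ := (h _).mp (hsq w)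
      refine ⟨s / t, ?_⟩
      rw [hs, smul_smul, div_mul_cancel₀ _ ht]
  · rw [uniCard, Finset.card_eq_zero, Finset.filter_eq_empty_iff]
    rintro v - ⟨hv, h1, h2⟩
    apply hdet
    refine ⟨det_of_ker hv h1, ?_⟩
    -- N^2 = 0 and N ≠ 0
    have hd := det_of_ker hv h1
    have hsq : ∀ w, N *ᵥ (N *ᵥ w) = 0 := by
      intro w
      obtain ⟨m, hm⟩ := h2 w
      rw [hm, Matrix.mulVec_smul, h1, smul_zero]
    by_contra htr
    apply hN
    have hN' : ∀ w, N *ᵥ w = 0 := by
      intro w
      have e0 := congrFun (hsq w) 0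
      have e1 := congrFun (hsq w) 1
      rw [mulVec_two, mulVec_two, mulVec_two, Pi.zero_apply] at e0 e1
      apply ext_two
      · rw [mulVec_two, Pi.zero_apply]
        apply mul_left_cancel₀ htr
        rw [mul_zero]
        linear_combination e0 + w 0 * hd
      · rw [mulVec_two, Pi.zero_apply]
        apply mul_left_cancel₀ htr
        rw [mul_zero]
        linear_combination e1 + w 1 * hd
    ext i j
    have := congrFun (hN' (Pi.single j 1)) i
    simpa using this

open Classical in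
/-- number of pairs (eigenvector, eigenvalue) -/
noncomputable def eCard (M : Matrix (Fin 2) (Fin 2) F) : ℕ :=
  (Finset.univ.filter fun v : Fin 2 → F => v ≠ 0 ∧ ∃ l, Ev M l v).card

open Classical in
noncomputable def pCard (M : Matrix (Fin 2) (Fin 2) F) : ℕ :=
  (Finset.univ.filter fun v : Fin 2 → F => v ≠ 0 ∧ ∃ l, Un M l v).card

lemma ev_unique {M : Matrix (Fin 2) (Fin 2) F} {l l' : F} {v : Fin 2 → F} (hv : v ≠ 0)
    (h : Ev M l v) (h' : Ev M l' v) : l = l' := by
  have h1 : l • v = l' • v := h.symm.trans h'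
  obtain ⟨i, hi⟩ := Function.ne_iff.mp hv
  have := congrFun h1 i
  simp only [Pi.smul_apply, smul_eq_mul] at this
  exact mul_right_cancel₀ hi this

lemma eCard_eq (M : Matrix (Fin 2) (Fin 2) F) :
    eCard M = ∑ l : F, kerCard (M - Matrix.scalar (Fin 2) l) := by
  classical
  rw [eCard]
  have h1 : (Finset.univ.filter fun v : Fin 2 → F => v ≠ 0 ∧ ∃ l, Ev M l v)
      = Finset.univ.biUnion (fun l : F => Finset.univ.filter fun v : Fin 2 → F =>
        v ≠ 0 ∧ (M - Matrix.scalar (Fin 2) l) *ᵥ v = 0) := by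
    ext v
    simp only [Finset.mem_filter, Finset.mem_univ, true_and, Finset.mem_biUnion]
    constructor
    · rintro ⟨hv, l, hl⟩
      exact ⟨l, hv, ev_sub_iff.mp hl⟩
    · rintro ⟨l, hv, hl⟩
      exact ⟨hv, l, ev_sub_iff.mpr hl⟩
  rw [h1, Finset.card_biUnion]
  · rfl
  · intro l _ l' _ hll
    rw [Function.onFun, Finset.disjoint_left]
    intro v hv hv'
    simp only [Finset.mem_filter, Finset.mem_univ, true_and] at hv hv'
    exact hll (ev_unique hv.1 (ev_sub_iff.mpr hv.2) (ev_sub_iff.mpr hv'.2))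

lemma pCard_eq (M : Matrix (Fin 2) (Fin 2) F) :
    pCard M = ∑ l : F, uniCard (M - Matrix.scalar (Fin 2) l) := by
  classical
  rw [pCard]
  have h1 : (Finset.univ.filter fun v : Fin 2 → F => v ≠ 0 ∧ ∃ l, Un M l v)
      = Finset.univ.biUnion (fun l : F => Finset.univ.filter fun v : Fin 2 → F =>
        v ≠ 0 ∧ ((M - Matrix.scalar (Fin 2) l) *ᵥ v = 0 ∧
          ∀ w, ∃ m : F, (M - Matrix.scalar (Fin 2) l) *ᵥ w = m • v)) := by
    ext v
    simp only [Finset.mem_filter, Finset.mem_univ, true_and, Finset.mem_biUnion]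
    constructor
    · rintro ⟨hv, l, hl⟩
      exact ⟨l, hv, un_sub_iff.mp hl⟩
    · rintro ⟨l, hv, hl⟩
      exact ⟨hv, l, un_sub_iff.mpr hl⟩
  rw [h1, Finset.card_biUnion]
  · rfl
  · intro l _ l' _ hll
    rw [Function.onFun, Finset.disjoint_left]
    intro v hv hv'
    simp only [Finset.mem_filter, Finset.mem_univ, true_and] at hv hv'
    exact hll (ev_unique hv.1 (ev_sub_iff.mpr hv.2.1) (ev_sub_iff.mpr hv'.2.1))

/-- a matrix is scalar -/
def IsSc (M : Matrix (Fin 2) (Fin 2) F) : Prop := ∃ l, M = Matrix.scalar (Fin 2) l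

lemma sub_ne_zero_of_not_sc {M : Matrix (Fin 2) (Fin 2) F} (h : ¬ IsSc M) (l : F) :
    M - Matrix.scalar (Fin 2) l ≠ 0 := fun h' => h ⟨l, sub_eq_zero.mp h'⟩

lemma root_count (t d : F) :
    ((Finset.univ.filter fun l : F => l * l - t * l + d = 0).card
      + (Finset.univ.filter fun l : F => l * l - t * l + d = 0 ∧ t - 2 * l = 0).card : ℕ)
      = if ∃ l : F, l * l - t * l + d = 0 then 2 else 0 := by
  classical
  split_ifs with h
  · obtain ⟨l₀, hl₀⟩ := h
    have hroot : ∀ l, l * l - t * l + d = 0 ↔ l = l₀ ∨ l = t - l₀ := by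
      intro l
      have : l * l - t * l + d = (l - l₀) * (l - (t - l₀)) := by linear_combination hl₀
      rw [this, mul_eq_zero, sub_eq_zero, sub_eq_zero]
    by_cases hd : t - l₀ = l₀
    · have h1 : (Finset.univ.filter fun l : F => l * l - t * l + d = 0) = {l₀} := by
        ext l
        simp only [Finset.mem_filter, Finset.mem_univ, true_and, hroot, Finset.mem_singleton, hd,
          or_self]
      have h2 : (Finset.univ.filter fun l : F => l * l - t * l + d = 0 ∧ t - 2 * l = 0)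
          = {l₀} := by
        ext l
        simp only [Finset.mem_filter, Finset.mem_univ, true_and, hroot, Finset.mem_singleton, hd,
          or_self]
        constructor
        · exact fun h => h.1
        · rintro rfl
          exact ⟨rfl, by linear_combination hd⟩
      rw [h1, h2]; rfl
    · have h1 : (Finset.univ.filter fun l : F => l * l - t * l + d = 0) = {l₀, t - l₀} := by
        ext l
        simp only [Finset.mem_filter, Finset.mem_univ, true_and, hroot, Finset.mem_insert,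
          Finset.mem_singleton]
      have h2 : (Finset.univ.filter fun l : F => l * l - t * l + d = 0 ∧ t - 2 * l = 0)
          = ∅ := by
        rw [Finset.filter_eq_empty_iff]
        rintro l - ⟨h3, h4⟩
        rw [hroot] at h3
        apply hd
        rcases h3 with rfl | rfl
        · linear_combination h4
        · linear_combination -h4
      rw [h1, h2, Finset.card_pair (Ne.symm hd)]; rfl
  · push Not at h
    have h1 : (Finset.univ.filter fun l : F => l * l - t * l + d = 0) = ∅ := by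
      rw [Finset.filter_eq_empty_iff]; intro l _; exact h l
    have h2 : (Finset.univ.filter fun l : F => l * l - t * l + d = 0 ∧ t - 2 * l = 0)
        = ∅ := by
      rw [Finset.filter_eq_empty_iff]; intro l _ h'; exact h l h'.1
    rw [h1, h2]; rfl

lemma sub_scalar_apply (M : Matrix (Fin 2) (Fin 2) F) (l : F) :
    (M - Matrix.scalar (Fin 2) l) 0 0 = M 0 0 - l ∧ (M - Matrix.scalar (Fin 2) l) 1 1 = M 1 1 - l ∧
    (M - Matrix.scalar (Fin 2) l) 0 1 = M 0 1 ∧ (M - Matrix.scalar (Fin 2) l) 1 0 = M 1 0 := by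
  refine ⟨?_, ?_, ?_, ?_⟩ <;> simp [Matrix.sub_apply, Matrix.scalar_apply]

lemma exists_ev_iff (M : Matrix (Fin 2) (Fin 2) F) :
    (∃ l : F, l * l - (M 0 0 + M 1 1) * l + (M 0 0 * M 1 1 - M 0 1 * M 1 0) = 0)
      ↔ ∃ v : Fin 2 → F, v ≠ 0 ∧ ∃ l, Ev M l v := by
  constructor
  · rintro ⟨l, hl⟩
    by_cases h : M - Matrix.scalar (Fin 2) l = 0
    · refine ⟨Pi.single 0 1, ?_, l, ?_⟩
      · intro h'
        have := congrFun h' 0
        simp at this
      · rw [ev_sub_iff, h]; exact Matrix.zero_mulVec _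
    · obtain ⟨u, hu, h2⟩ := exists_ker h (by
        obtain ⟨e1, e2, e3, e4⟩ := sub_scalar_apply M l
        rw [e1, e2, e3, e4]
        linear_combination hl)
      exact ⟨u, hu, l, ev_sub_iff.mpr ((h2 u).mpr ⟨1, by simp⟩)⟩
  · rintro ⟨v, hv, l, hl⟩
    refine ⟨l, ?_⟩
    have := det_of_ker hv (ev_sub_iff.mp hl)
    obtain ⟨e1, e2, e3, e4⟩ := sub_scalar_apply M l
    rw [e1, e2, e3, e4] at this
    linear_combination this

open Classical in
/-- The main count for nonscalar matrices. -/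
lemma e_add_p {M : Matrix (Fin 2) (Fin 2) F} (h : ¬ IsSc M) :
    eCard M + pCard M = if ∃ v : Fin 2 → F, v ≠ 0 ∧ ∃ l, Ev M l v
      then 2 * (Fintype.card F - 1) else 0 := by
  have h1 : eCard M = (Finset.univ.filter fun l : F =>
      l * l - (M 0 0 + M 1 1) * l + (M 0 0 * M 1 1 - M 0 1 * M 1 0) = 0).card
        * (Fintype.card F - 1) := by
    rw [eCard_eq, ← smul_eq_mul, ← Finset.sum_const, Finset.sum_filter]
    refine Finset.sum_congr rfl fun l _ => ?_
    rw [kerCard_eq (sub_ne_zero_of_not_sc h l)]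
    obtain ⟨e1, e2, e3, e4⟩ := sub_scalar_apply M l
    rw [e1, e2, e3, e4]
    have : ((M 0 0 - l) * (M 1 1 - l) = M 0 1 * M 1 0) ↔
        (l * l - (M 0 0 + M 1 1) * l + (M 0 0 * M 1 1 - M 0 1 * M 1 0) = 0) := by
      constructor
      · intro h; linear_combination h
      · intro h; linear_combination h
    simp only [this]
  have h2 : pCard M = (Finset.univ.filter fun l : F =>
      l * l - (M 0 0 + M 1 1) * l + (M 0 0 * M 1 1 - M 0 1 * M 1 0) = 0
        ∧ (M 0 0 + M 1 1) - 2 * l = 0).card * (Fintype.card F - 1) := by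
    rw [pCard_eq, ← smul_eq_mul, ← Finset.sum_const, Finset.sum_filter]
    refine Finset.sum_congr rfl fun l _ => ?_
    rw [uniCard_eq (sub_ne_zero_of_not_sc h l)]
    obtain ⟨e1, e2, e3, e4⟩ := sub_scalar_apply M l
    rw [e1, e2, e3, e4]
    have : ((M 0 0 - l) * (M 1 1 - l) = M 0 1 * M 1 0 ∧ (M 0 0 - l) + (M 1 1 - l) = 0) ↔
        (l * l - (M 0 0 + M 1 1) * l + (M 0 0 * M 1 1 - M 0 1 * M 1 0) = 0
          ∧ (M 0 0 + M 1 1) - 2 * l = 0) := by
      constructor
      · rintro ⟨h, h'⟩; exact ⟨by linear_combination h, by linear_combination h'⟩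
      · rintro ⟨h, h'⟩; exact ⟨by linear_combination h, by linear_combination h'⟩
    simp only [this]
  rw [h1, h2, ← add_mul, root_count]
  by_cases hex : ∃ l : F, l * l - (M 0 0 + M 1 1) * l + (M 0 0 * M 1 1 - M 0 1 * M 1 0) = 0
  · rw [if_pos hex, if_pos ((exists_ev_iff M).mp hex)]
  · rw [if_neg hex, if_neg (fun h => hex ((exists_ev_iff M).mpr h)), zero_mul]

end count

end Pool.Agent.H302R4
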