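import Mathlib
import Pool.Agent.H302R4.Mat2

/-!
# Counting matrices without eigenvectors, commutants
-/

set_option autoImplicit false
set_option linter.unusedSectionVars false

namespace Pool.Agent.H302R4

open Matrix

variable {F : Type*} [Field F] [Fintype F] [DecidableEq F]

lemma card_nonzero : ((Finset.univ.filter fun v : Fin 2 → F => v ≠ 0).card : ℤ)
    = (Fintype.card F : ℤ) ^ 2 - 1 := by
  classical
  have h1 : (Finset.univ.filter fun v : Fin 2 → F => v ≠ 0) = Finset.univ.erase 0 := by
    ext v; simp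
  rw [h1, Finset.card_erase_of_mem (Finset.mem_univ _), Finset.card_univ, Fintype.card_fun,
    Fintype.card_fin, Nat.cast_sub (Nat.one_le_pow _ _ Fintype.card_pos)]
  push_cast; ring

/-- the vector orthogonal to `v` -/
def perp (v : Fin 2 → F) : Fin 2 → F := ![-v 1, v 0]

lemma perp_ne {v : Fin 2 → F} (hv : v ≠ 0) : ∃ j, perp v j ≠ 0 := by
  rcases ne_zero_two hv with h | h
  · exact ⟨1, by simpa [perp] using h⟩
  · exact ⟨0, by simpa [perp] using h⟩

lemma vmv_mulVec (u v w : Fin 2 → F) :
    Matrix.vecMulVec u (perp v) *ᵥ w = (v 0 * w 1 - v 1 * w 0) • u := by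
  apply ext_two
  · rw [mulVec_two]; simp [Matrix.vecMulVec_apply, perp]; ring
  · rw [mulVec_two]; simp [Matrix.vecMulVec_apply, perp]; ring

lemma vmv_inj {v : Fin 2 → F} (hv : v ≠ 0) :
    Function.Injective fun u : Fin 2 → F => Matrix.vecMulVec u (perp v) := by
  intro u u' h
  obtain ⟨j, hj⟩ := perp_ne hv
  ext i
  have := congrFun (congrFun h i) j
  simp only [Matrix.vecMulVec_apply] at this
  exact mul_right_cancel₀ hj this

lemma killed_iff {v : Fin 2 → F} (hv : v ≠ 0) (N : Matrix (Fin 2) (Fin 2) F) :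
    N *ᵥ v = 0 ↔ ∃ u : Fin 2 → F, Matrix.vecMulVec u (perp v) = N := by
  constructor
  · intro h
    have e0 : N 0 0 * v 0 + N 0 1 * v 1 = 0 := by rw [← mulVec_two, h]; rfl
    have e1 : N 1 0 * v 0 + N 1 1 * v 1 = 0 := by rw [← mulVec_two, h]; rfl
    rcases ne_zero_two hv with h0 | h0
    · refine ⟨![N 0 1 / v 0, N 1 1 / v 0], ?_⟩
      ext i j
      fin_cases i <;> fin_cases j <;> simp [Matrix.vecMulVec_apply, perp] <;> field_simp
      · linear_combination -e0
      · linear_combination -e1
    · refine ⟨![-N 0 0 / v 1, -N 1 0 / v 1], ?_⟩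
      ext i j
      fin_cases i <;> fin_cases j <;> simp [Matrix.vecMulVec_apply, perp] <;> field_simp
      · linear_combination -e0
      · linear_combination -e1
  · rintro ⟨u, rfl⟩
    rw [vmv_mulVec, mul_comm, sub_self, zero_smul]

lemma exists_det_one {v : Fin 2 → F} (hv : v ≠ 0) : ∃ w : Fin 2 → F, v 0 * w 1 - v 1 * w 0 = 1 := by
  rcases ne_zero_two hv with h | h
  · exact ⟨![0, 1 / v 0], by simp [h]⟩
  · exact ⟨![-1 / v 1, 0], by simp; field_simp⟩

open Classical in
lemma card_killed {v : Fin 2 → F} (hv : v ≠ 0) :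
    (Finset.univ.filter fun N : Matrix (Fin 2) (Fin 2) F => N *ᵥ v = 0).card
      = Fintype.card F ^ 2 := by
  have h1 : (Finset.univ.filter fun N : Matrix (Fin 2) (Fin 2) F => N *ᵥ v = 0)
      = Finset.univ.image fun u : Fin 2 → F => Matrix.vecMulVec u (perp v) := by
    ext N
    simp only [Finset.mem_filter, Finset.mem_univ, true_and, Finset.mem_image, killed_iff hv]
  rw [h1, Finset.card_image_of_injective _ (vmv_inj hv), Finset.card_univ, Fintype.card_fun,
    Fintype.card_fin]

open Classical in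
lemma card_killed_uni {v : Fin 2 → F} (hv : v ≠ 0) :
    (Finset.univ.filter fun N : Matrix (Fin 2) (Fin 2) F =>
      N *ᵥ v = 0 ∧ ∀ w, ∃ m : F, N *ᵥ w = m • v).card = Fintype.card F := by
  have h1 : (Finset.univ.filter fun N : Matrix (Fin 2) (Fin 2) F =>
      N *ᵥ v = 0 ∧ ∀ w, ∃ m : F, N *ᵥ w = m • v)
      = Finset.univ.image fun m : F => Matrix.vecMulVec (m • v) (perp v) := by
    ext N
    simp only [Finset.mem_filter, Finset.mem_univ, true_and, Finset.mem_image]
    constructor
    · rintro ⟨h, h2⟩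
      obtain ⟨u, rfl⟩ := (killed_iff hv N).mp h
      obtain ⟨w, hw⟩ := exists_det_one hv
      obtain ⟨m, hm⟩ := h2 w
      rw [vmv_mulVec, hw, one_smul] at hm
      exact ⟨m, by rw [hm]⟩
    · rintro ⟨m, rfl⟩
      refine ⟨(killed_iff hv _).mpr ⟨_, rfl⟩, fun w => ⟨(v 0 * w 1 - v 1 * w 0) * m, ?_⟩⟩
      rw [vmv_mulVec, smul_smul]
  rw [h1, Finset.card_image_of_injective, Finset.card_univ]
  intro m m' h
  have := vmv_inj hv h
  obtain ⟨i, hi⟩ := Function.ne_iff.mp hv
  have := congrFun this i
  simp only [Pi.smul_apply, smul_eq_mul] at this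
  exact mul_right_cancel₀ hi this

lemma sum_kerCard : (∑ N : Matrix (Fin 2) (Fin 2) F, (kerCard N : ℤ))
    = ((Fintype.card F : ℤ) ^ 2 - 1) * (Fintype.card F : ℤ) ^ 2 := by
  classical
  have h1 : ∀ N : Matrix (Fin 2) (Fin 2) F, (kerCard N : ℤ)
      = ∑ v : Fin 2 → F, if v ≠ 0 ∧ N *ᵥ v = 0 then 1 else 0 := by
    intro N
    rw [kerCard, Finset.card_filter]
    push_cast
    rfl
  rw [Finset.sum_congr rfl (fun N _ => h1 N), Finset.sum_comm]
  have h2 : ∀ v : Fin 2 → F, (∑ N : Matrix (Fin 2) (Fin 2) F,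
      if v ≠ 0 ∧ N *ᵥ v = 0 then (1 : ℤ) else 0) = if v ≠ 0 then (Fintype.card F : ℤ) ^ 2 else 0 := by
    intro v
    by_cases hv : v = 0
    · simp [hv]
    · have := card_killed hv
      rw [if_pos hv]
      rw [Finset.card_filter] at this
      have h3 := congrArg (Nat.cast : ℕ → ℤ) this
      push_cast at h3
      rw [← h3]
      refine Finset.sum_congr rfl fun N _ => ?_
      simp [hv]
  rw [Finset.sum_congr rfl (fun v _ => h2 v), ← Finset.sum_filter, Finset.sum_const, nsmul_eq_mul,
    card_nonzero]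

lemma sum_uniCard : (∑ N : Matrix (Fin 2) (Fin 2) F, (uniCard N : ℤ))
    = ((Fintype.card F : ℤ) ^ 2 - 1) * (Fintype.card F : ℤ) := by
  classical
  have h1 : ∀ N : Matrix (Fin 2) (Fin 2) F, (uniCard N : ℤ)
      = ∑ v : Fin 2 → F, if v ≠ 0 ∧ (N *ᵥ v = 0 ∧ ∀ w, ∃ m : F, N *ᵥ w = m • v)
        then 1 else 0 := by
    intro N
    rw [uniCard, Finset.card_filter]
    push_cast
    rfl
  rw [Finset.sum_congr rfl (fun N _ => h1 N), Finset.sum_comm]
  have h2 : ∀ v : Fin 2 → F, (∑ N : Matrix (Fin 2) (Fin 2) F,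
      if v ≠ 0 ∧ (N *ᵥ v = 0 ∧ ∀ w, ∃ m : F, N *ᵥ w = m • v) then (1 : ℤ) else 0)
      = if v ≠ 0 then (Fintype.card F : ℤ) else 0 := by
    intro v
    by_cases hv : v = 0
    · simp [hv]
    · have := card_killed_uni hv
      rw [if_pos hv]
      rw [Finset.card_filter] at this
      have h3 := congrArg (Nat.cast : ℕ → ℤ) this
      push_cast at h3
      rw [← h3]
      refine Finset.sum_congr rfl fun N _ => ?_
      simp [hv]
  rw [Finset.sum_congr rfl (fun v _ => h2 v), ← Finset.sum_filter, Finset.sum_const, nsmul_eq_mul,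
    card_nonzero]

lemma sum_eCard : (∑ M : Matrix (Fin 2) (Fin 2) F, (eCard M : ℤ))
    = (Fintype.card F : ℤ) * (((Fintype.card F : ℤ) ^ 2 - 1) * (Fintype.card F : ℤ) ^ 2) := by
  have h1 : ∀ M : Matrix (Fin 2) (Fin 2) F, (eCard M : ℤ)
      = ∑ l : F, (kerCard (M - Matrix.scalar (Fin 2) l) : ℤ) := by
    intro M; rw [eCard_eq]; push_cast; rfl
  rw [Finset.sum_congr rfl (fun M _ => h1 M), Finset.sum_comm]
  have h2 : ∀ l : F, ∑ M : Matrix (Fin 2) (Fin 2) F,
      (kerCard (M - Matrix.scalar (Fin 2) l) : ℤ) = ∑ N : Matrix (Fin 2) (Fin 2) F,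
        (kerCard N : ℤ) := fun l =>
    Equiv.sum_comp (Equiv.subRight (Matrix.scalar (Fin 2) l)) (fun N => (kerCard N : ℤ))
  rw [Finset.sum_congr rfl (fun l _ => h2 l), Finset.sum_const, nsmul_eq_mul, Finset.card_univ,
    sum_kerCard]

lemma sum_pCard : (∑ M : Matrix (Fin 2) (Fin 2) F, (pCard M : ℤ))
    = (Fintype.card F : ℤ) * (((Fintype.card F : ℤ) ^ 2 - 1) * (Fintype.card F : ℤ)) := by
  have h1 : ∀ M : Matrix (Fin 2) (Fin 2) F, (pCard M : ℤ)
      = ∑ l : F, (uniCard (M - Matrix.scalar (Fin 2) l) : ℤ) := by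
    intro M; rw [pCard_eq]; push_cast; rfl
  rw [Finset.sum_congr rfl (fun M _ => h1 M), Finset.sum_comm]
  have h2 : ∀ l : F, ∑ M : Matrix (Fin 2) (Fin 2) F,
      (uniCard (M - Matrix.scalar (Fin 2) l) : ℤ) = ∑ N : Matrix (Fin 2) (Fin 2) F,
        (uniCard N : ℤ) := fun l =>
    Equiv.sum_comp (Equiv.subRight (Matrix.scalar (Fin 2) l)) (fun N => (uniCard N : ℤ))
  rw [Finset.sum_congr rfl (fun l _ => h2 l), Finset.sum_const, nsmul_eq_mul, Finset.card_univ,
    sum_uniCard]

lemma e_scalar {M : Matrix (Fin 2) (Fin 2) F} (h : IsSc M) :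
    (eCard M : ℤ) = (Fintype.card F : ℤ) ^ 2 - 1 := by
  classical
  obtain ⟨l, rfl⟩ := h
  rw [← card_nonzero, eCard]
  congr 2
  ext v
  simp only [Finset.mem_filter, Finset.mem_univ, true_and, and_iff_left_iff_imp]
  exact fun _ => ⟨l, scalar_mulVec' l v⟩

lemma p_scalar {M : Matrix (Fin 2) (Fin 2) F} (h : IsSc M) :
    (pCard M : ℤ) = (Fintype.card F : ℤ) ^ 2 - 1 := by
  classical
  obtain ⟨l, rfl⟩ := h
  rw [← card_nonzero, pCard]
  congr 2
  ext v
  simp only [Finset.mem_filter, Finset.mem_univ, true_and, and_iff_left_iff_imp]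
  exact fun _ => ⟨l, scalar_mulVec' l v, fun w => ⟨0, by rw [scalar_mulVec', zero_smul, add_zero]⟩⟩

/-- no eigenvector -/
def IsEll (M : Matrix (Fin 2) (Fin 2) F) : Prop := ¬ ∃ v : Fin 2 → F, v ≠ 0 ∧ ∃ l, Ev M l v

lemma IsEll.not_sc {M : Matrix (Fin 2) (Fin 2) F} (h : IsEll M) : ¬ IsSc M := by
  rintro ⟨l, rfl⟩
  apply h
  refine ⟨Pi.single 0 1, ?_, l, scalar_mulVec' l _⟩
  intro h'
  have := congrFun h' 0
  simp at this

open Classical in
/-- the main identity -/
lemma e_add_p_int (M : Matrix (Fin 2) (Fin 2) F) :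
    (eCard M : ℤ) + pCard M = 2 * ((Fintype.card F : ℤ) - 1)
      * (1 - (if IsEll M then 1 else 0) + (Fintype.card F : ℤ) * (if IsSc M then 1 else 0)) := by
  have hq : 1 ≤ Fintype.card F := Fintype.card_pos
  by_cases hs : IsSc M
  · have : ¬ IsEll M := fun h => h.not_sc hs
    rw [e_scalar hs, p_scalar hs, if_pos hs, if_neg this]
    ring
  · have h1 := congrArg (Nat.cast : ℕ → ℤ) (e_add_p hs)
    push_cast at h1
    rw [h1, if_neg hs]
    by_cases he : IsEll M
    · rw [if_pos he, if_neg he]; ring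
    · rw [if_neg he]
      have he' : ∃ v : Fin 2 → F, v ≠ 0 ∧ ∃ l, Ev M l v := not_not.mp he
      rw [if_pos he', Nat.cast_sub hq]; push_cast; ring

variable (F) in
open Classical in
/-- number of matrices without eigenvectors -/
noncomputable def ellCard : ℕ :=
  (Finset.univ.filter fun M : Matrix (Fin 2) (Fin 2) F => IsEll M).card

open Classical in
lemma card_sc : (Finset.univ.filter fun M : Matrix (Fin 2) (Fin 2) F => IsSc M).card
    = Fintype.card F := by
  have h1 : (Finset.univ.filter fun M : Matrix (Fin 2) (Fin 2) F => IsSc M)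
      = Finset.univ.image (fun l : F => Matrix.scalar (Fin 2) l) := by
    ext M
    simp only [Finset.mem_filter, Finset.mem_univ, true_and, Finset.mem_image]
    constructor
    · rintro ⟨l, hl⟩
      exact ⟨l, hl.symm⟩
    · rintro ⟨l, hl⟩
      exact ⟨l, hl.symm⟩
  rw [h1, Finset.card_image_of_injective, Finset.card_univ]
  intro a b h
  have := congrFun (congrFun h 0) 0
  simpa [Matrix.scalar_apply] using this

lemma two_mul_ellCard :
    2 * (ellCard F : ℤ) = ((Fintype.card F : ℤ) ^ 2 - Fintype.card F) ^ 2 := by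
  classical
  set q : ℤ := (Fintype.card F : ℤ) with hq
  have hq1 : q - 1 ≠ 0 := by
    have : 1 < Fintype.card F := Fintype.one_lt_card
    have : (1 : ℤ) < q := by rw [hq]; exact_mod_cast this
    omega
  have h1 : ∑ M : Matrix (Fin 2) (Fin 2) F, ((eCard M : ℤ) + pCard M)
      = q * ((q ^ 2 - 1) * q ^ 2) + q * ((q ^ 2 - 1) * q) := by
    rw [Finset.sum_add_distrib, sum_eCard, sum_pCard]
  have h2 : ∑ M : Matrix (Fin 2) (Fin 2) F, ((eCard M : ℤ) + pCard M)
      = 2 * (q - 1) * (q ^ 4 - ellCard F + q * q) := by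
    rw [Finset.sum_congr rfl (fun M _ => e_add_p_int M), ← Finset.mul_sum,
      Finset.sum_add_distrib, Finset.sum_sub_distrib, ← Finset.mul_sum]
    congr 1
    have a1 : ∑ _M : Matrix (Fin 2) (Fin 2) F, (1 : ℤ) = q ^ 4 := by
      rw [Finset.sum_const, Finset.card_univ, nsmul_eq_mul, mul_one]
      have : Fintype.card (Matrix (Fin 2) (Fin 2) F) = Fintype.card F ^ 4 := by
        change Fintype.card (Fin 2 → Fin 2 → F) = _
        rw [Fintype.card_fun, Fintype.card_fun, Fintype.card_fin, ← pow_mul]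
      rw [this]; push_cast; rfl
    have a2 : ∑ M : Matrix (Fin 2) (Fin 2) F, (if IsEll M then (1 : ℤ) else 0) = ellCard F := by
      rw [ellCard, Finset.card_filter]; push_cast; rfl
    have a3 : ∑ M : Matrix (Fin 2) (Fin 2) F, (if IsSc M then (1 : ℤ) else 0) = q := by
      rw [hq, ← card_sc (F := F), Finset.card_filter]; push_cast; rfl
    rw [a1, a2, a3]
  rw [h1] at h2
  apply mul_left_cancel₀ hq1
  linear_combination h2

lemma commute_iff {M : Matrix (Fin 2) (Fin 2) F} (h : ¬ IsSc M) (A : Matrix (Fin 2) (Fin 2) F) :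
    A * M = M * A ↔ ∃ a b : F, A = Matrix.scalar (Fin 2) a + b • M := by
  constructor
  · intro hc
    have e01 := congrFun (congrFun hc 0) 1
    have e00 := congrFun (congrFun hc 0) 0
    have e10 := congrFun (congrFun hc 1) 0
    simp only [Matrix.mul_apply, Fin.sum_univ_two] at e01 e00 e10
    have key : ∀ b : F, A 0 1 = b * M 0 1 → A 1 0 = b * M 1 0 →
        A 0 0 - A 1 1 = b * (M 0 0 - M 1 1) →
        ∃ a b : F, A = Matrix.scalar (Fin 2) a + b • M := by
      intro b h1 h2 h3
      refine ⟨A 0 0 - b * M 0 0, b, ?_⟩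
      ext i j
      fin_cases i <;> fin_cases j <;>
        simp [Matrix.add_apply, Matrix.smul_apply, Matrix.scalar_apply]
      · exact h1
      · exact h2
      · linear_combination -h3
    by_cases h1 : M 0 1 = 0
    · by_cases h2 : M 1 0 = 0
      · have h3 : M 0 0 - M 1 1 ≠ 0 := by
          intro h3
          apply h
          refine ⟨M 0 0, ?_⟩
          ext i j
          fin_cases i <;> fin_cases j <;> simp [Matrix.scalar_apply, h1, h2]
          linear_combination -h3
        refine key ((A 0 0 - A 1 1) / (M 0 0 - M 1 1)) ?_ ?_ ?_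
        · rw [h1, mul_zero]
          apply mul_right_cancel₀ h3
          rw [zero_mul]
          rw [h1] at e01
          linear_combination -e01
        · rw [h2, mul_zero]
          apply mul_right_cancel₀ h3
          rw [zero_mul]
          rw [h2] at e10
          linear_combination e10
        · field_simp
      · refine key (A 1 0 / M 1 0) ?_ ?_ ?_
        · apply mul_right_cancel₀ h2
          field_simp
          linear_combination e00
        · field_simp
        · apply mul_right_cancel₀ h2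
          field_simp
          linear_combination -e10
    · refine key (A 0 1 / M 0 1) ?_ ?_ ?_
      · field_simp
      · apply mul_right_cancel₀ h1
        field_simp
        linear_combination -e00
      · apply mul_right_cancel₀ h1
        field_simp
        linear_combination e01
  · rintro ⟨a, b, rfl⟩
    rw [add_mul, mul_add, Matrix.smul_mul, Matrix.mul_smul]
    congr 1
    exact (Matrix.scalar_commute a (fun r => Commute.all _ _) M).eq

open Classical in
lemma comm_count (M : Matrix (Fin 2) (Fin 2) F) :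
    ((Finset.univ.filter fun A : Matrix (Fin 2) (Fin 2) F => IsEll A ∧ A * M = M * A).card : ℤ)
      = (ellCard F : ℤ) * (if IsSc M then 1 else 0)
        + ((Fintype.card F : ℤ) ^ 2 - Fintype.card F) * (if IsEll M then 1 else 0) := by
  by_cases hs : IsSc M
  · rw [if_pos hs, if_neg (fun h => h.not_sc hs), mul_one, mul_zero, add_zero, ellCard]
    congr 2
    ext A
    simp only [Finset.mem_filter, Finset.mem_univ, true_and, and_iff_left_iff_imp]
    intro _
    obtain ⟨l, rfl⟩ := hs
    exact (Matrix.scalar_commute l (fun r => Commute.all _ _) A).eq.symm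
  · rw [if_neg hs, mul_zero, zero_add]
    by_cases he : IsEll M
    · rw [if_pos he, mul_one]
      have h1 : (Finset.univ.filter fun A : Matrix (Fin 2) (Fin 2) F => IsEll A ∧ A * M = M * A)
          = ((Finset.univ : Finset F) ×ˢ (Finset.univ.erase (0 : F))).image
            (fun x => Matrix.scalar (Fin 2) x.1 + x.2 • M) := by
        ext A
        simp only [Finset.mem_filter, Finset.mem_univ, true_and, Finset.mem_image,
          Finset.mem_product, Finset.mem_erase, and_true, Prod.exists, commute_iff hs]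
        constructor
        · rintro ⟨hA, a, b, rfl⟩
          refine ⟨a, b, ?_, rfl⟩
          rintro rfl
          apply hA.not_sc
          exact ⟨a, by rw [zero_smul, add_zero]⟩
        · rintro ⟨a, b, hb, rfl⟩
          refine ⟨?_, a, b, rfl⟩
          rintro ⟨v, hv, l, hl⟩
          apply he
          refine ⟨v, hv, (l - a) / b, ?_⟩
          rw [Ev, Matrix.add_mulVec, scalar_mulVec', Matrix.smul_mulVec] at hl
          rw [Ev]
          have : b • (M *ᵥ v) = (l - a) • v := by rw [sub_smul, ← hl]; abel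
          rw [div_eq_inv_mul, mul_smul, ← this, smul_smul, inv_mul_cancel₀ hb, one_smul]
      rw [h1, Finset.card_image_of_injective, Finset.card_product, Finset.card_univ,
        Finset.card_erase_of_mem (Finset.mem_univ _), Finset.card_univ]
      · have hq : 1 ≤ Fintype.card F := Fintype.card_pos
        push_cast [Nat.cast_sub hq]
        ring
      · rintro ⟨a, b⟩ ⟨a', b'⟩ h
        simp only at h
        have hb : b = b' := by
          by_contra hbb
          apply hs
          refine ⟨(a' - a) / (b - b'), ?_⟩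
          have h2 : (b - b') • M = Matrix.scalar (Fin 2) (a' - a) := by
            rw [sub_smul, map_sub, sub_eq_sub_iff_add_eq_add, add_comm, h, add_comm]
          have hbb' : b - b' ≠ 0 := sub_ne_zero.mpr hbb
          have h3 : M = (b - b')⁻¹ • ((b - b') • M) := by
            rw [smul_smul, inv_mul_cancel₀ hbb', one_smul]
          rw [h3, h2]
          ext i j
          fin_cases i <;> fin_cases j <;> simp [Matrix.scalar_apply, div_eq_inv_mul]
        subst hb
        have h3 := add_right_cancel h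
        have := congrFun (congrFun h3 0) 0
        simp [Matrix.scalar_apply] at this
        rw [this]
    · rw [if_neg he, mul_zero, Nat.cast_eq_zero, Finset.card_eq_zero, Finset.filter_eq_empty_iff]
      rintro A - ⟨hA, hc⟩
      obtain ⟨v, hv, l, hl⟩ := not_not.mp he
      obtain ⟨a, b, rfl⟩ := (commute_iff hs A).mp hc
      apply hA
      refine ⟨v, hv, a + b * l, ?_⟩
      rw [Ev, Matrix.add_mulVec, scalar_mulVec', Matrix.smul_mulVec, hl, add_smul, smul_smul]

end Pool.Agent.H302R4
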