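import Mathlib
import Pool.Agent.H302R4.Mat2B

/-!
# Solvable subgroups of `PGL(2,F)`
-/

set_option autoImplicit false
set_option linter.unusedSectionVars false

namespace Pool.Agent.H302R4

open Matrix MatrixGroups

universe u

/-- a group whose commutators lie in a commutative subgroup is solvable -/
lemma sol_of_commutators {G : Type*} [Group G] (U : Subgroup G)
    (h1 : ∀ a b : G, a * b * a⁻¹ * b⁻¹ ∈ U) (h2 : ∀ a ∈ U, ∀ b ∈ U, a * b = b * a) :
    Group.IsSolvable G := by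
  refine ⟨2, ?_⟩
  rw [derivedSeries_succ, derivedSeries_one]
  have h3 : commutator G ≤ U := by
    rw [commutator_def, Subgroup.commutator_le]
    exact fun a _ b _ => h1 a b
  rw [eq_bot_iff]
  refine (Subgroup.commutator_mono h3 h3).trans ?_
  rw [Subgroup.commutator_le]
  intro a ha b hb
  rw [Subgroup.mem_bot, commutatorElement_eq_one_iff_mul_comm]
  exact h2 a ha b hb

variable {F : Type u} [Field F]

/-- stabilizer of the line spanned by `v` -/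
def bor (v : Fin 2 → F) : Subgroup (GL (Fin 2) F) where
  carrier := {A | ∃ l, Ev (A : Matrix (Fin 2) (Fin 2) F) l v}
  mul_mem' := by
    rintro A B ⟨l, hl⟩ ⟨m, hm⟩
    refine ⟨m * l, ?_⟩
    rw [Ev] at *
    rw [Units.val_mul, ← Matrix.mulVec_mulVec, hm, Matrix.mulVec_smul, hl, smul_smul]
  one_mem' := ⟨1, by rw [Ev, Units.val_one, Matrix.one_mulVec, one_smul]⟩
  inv_mem' := by
    rintro A ⟨l, hl⟩
    rw [Ev] at hl
    have h1 : ((A⁻¹ : GL (Fin 2) F) : Matrix (Fin 2) (Fin 2) F) *ᵥ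
        ((A : Matrix (Fin 2) (Fin 2) F) *ᵥ v) = v := by
      rw [Matrix.mulVec_mulVec, ← Units.val_mul, inv_mul_cancel, Units.val_one, Matrix.one_mulVec]
    by_cases hl0 : l = 0
    · refine ⟨0, ?_⟩
      have hv : v = 0 := by rw [← h1, hl, hl0, zero_smul, Matrix.mulVec_zero]
      rw [Ev, hv, Matrix.mulVec_zero, smul_zero]
    · refine ⟨l⁻¹, ?_⟩
      rw [hl, Matrix.mulVec_smul] at h1
      rw [Ev]
      conv_rhs => rw [← h1]
      rw [smul_smul, inv_mul_cancel₀ hl0, one_smul]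

lemma mem_bor {v : Fin 2 → F} {A : GL (Fin 2) F} :
    A ∈ bor v ↔ ∃ l, Ev (A : Matrix (Fin 2) (Fin 2) F) l v := Iff.rfl

/-- unipotent elements fixing `v` -/
def uni (v : Fin 2 → F) : Subgroup (GL (Fin 2) F) where
  carrier := {A | Un (A : Matrix (Fin 2) (Fin 2) F) 1 v}
  mul_mem' := by
    rintro A B ⟨h1, h2⟩ ⟨h3, h4⟩
    rw [one_smul] at h1 h3
    refine ⟨?_, fun w => ?_⟩
    · rw [Units.val_mul, ← Matrix.mulVec_mulVec, h3, h1, one_smul]
    · obtain ⟨m, hm⟩ := h4 w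
      obtain ⟨m', hm'⟩ := h2 w
      rw [one_smul] at hm hm'
      refine ⟨m + m', ?_⟩
      rw [Units.val_mul, ← Matrix.mulVec_mulVec, hm, Matrix.mulVec_add, hm', Matrix.mulVec_smul,
        h1, one_smul, add_smul]
      abel
  one_mem' := ⟨by rw [Units.val_one, Matrix.one_mulVec, one_smul], fun w => ⟨0, by
    rw [Units.val_one, Matrix.one_mulVec, one_smul, zero_smul, add_zero]⟩⟩
  inv_mem' := by
    rintro A ⟨h1, h2⟩
    rw [one_smul] at h1
    have hinv : ∀ w, ((A⁻¹ : GL (Fin 2) F) : Matrix (Fin 2) (Fin 2) F) *ᵥ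
        ((A : Matrix (Fin 2) (Fin 2) F) *ᵥ w) = w := by
      intro w
      rw [Matrix.mulVec_mulVec, ← Units.val_mul, inv_mul_cancel, Units.val_one, Matrix.one_mulVec]
    have h3 : ((A⁻¹ : GL (Fin 2) F) : Matrix (Fin 2) (Fin 2) F) *ᵥ v = v := by
      conv_lhs => rw [← h1]
      exact hinv v
    refine ⟨by rw [h3, one_smul], fun w => ?_⟩
    obtain ⟨m, hm⟩ := h2 w
    refine ⟨-m, ?_⟩
    have h4 := hinv w
    rw [hm, Matrix.mulVec_add, one_smul, Matrix.mulVec_smul, h3] at h4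
    rw [one_smul]
    conv_rhs => rw [← h4]
    rw [neg_smul]; abel

lemma uni_comm {v : Fin 2 → F} (A B : GL (Fin 2) F) (hA : A ∈ uni v)
    (hB : B ∈ uni v) : A * B = B * A := by
  obtain ⟨h1, h2⟩ := hA
  obtain ⟨h3, h4⟩ := hB
  rw [one_smul] at h1 h3
  apply Units.ext
  apply Matrix.ext_of_mulVec_single
  intro j
  set w : Fin 2 → F := Pi.single j 1 with hw
  obtain ⟨m, hm⟩ := h2 w
  obtain ⟨m', hm'⟩ := h4 w
  rw [one_smul] at hm hm'
  rw [Units.val_mul, Units.val_mul, ← Matrix.mulVec_mulVec, ← Matrix.mulVec_mulVec, hm, hm',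
    Matrix.mulVec_add, Matrix.mulVec_add, hm, hm', Matrix.mulVec_smul, Matrix.mulVec_smul, h1, h3]
  abel

/-- action on the quotient by the line of `v` -/
lemma bor_quot {v : Fin 2 → F} (hv : v ≠ 0) {A : GL (Fin 2) F} (hA : A ∈ bor v) :
    ∃ a : F, a ≠ 0 ∧ ∀ w, ∃ m : F, (A : Matrix (Fin 2) (Fin 2) F) *ᵥ w = a • w + m • v := by
  classical
  obtain ⟨l, hl⟩ := hA
  rw [Ev] at hl
  obtain ⟨w₀, hw₀⟩ : ∃ w : Fin 2 → F, v 0 * w 1 - v 1 * w 0 = 1 := by
    rcases ne_zero_two hv with h | h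
    · exact ⟨![0, 1 / v 0], by simp [h]⟩
    · exact ⟨![-1 / v 1, 0], by simp; field_simp⟩
  -- every vector is a combination
  have hdec : ∀ w : Fin 2 → F, w = (w 0 * w₀ 1 - w 1 * w₀ 0) • v + (v 0 * w 1 - v 1 * w 0) • w₀ := by
    intro w
    apply ext_two
    · simp only [Pi.add_apply, Pi.smul_apply, smul_eq_mul]
      linear_combination (-w 0) * hw₀
    · simp only [Pi.add_apply, Pi.smul_apply, smul_eq_mul]
      linear_combination (-w 1) * hw₀
  obtain ⟨a, m₀, ham⟩ : ∃ a m : F, (A : Matrix (Fin 2) (Fin 2) F) *ᵥ w₀ = a • w₀ + m • v := by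
    refine ⟨_, _, (hdec ((A : Matrix (Fin 2) (Fin 2) F) *ᵥ w₀)).trans (add_comm _ _)⟩
  have hkey : ∀ w, ∃ m : F, (A : Matrix (Fin 2) (Fin 2) F) *ᵥ w = a • w + m • v := by
    intro w
    obtain ⟨α, β, hw⟩ : ∃ α β : F, w = α • v + β • w₀ := ⟨_, _, hdec w⟩
    refine ⟨α * l + β * m₀ - a * α, ?_⟩
    rw [hw, Matrix.mulVec_add, Matrix.mulVec_smul, Matrix.mulVec_smul, hl, ham]
    module
  refine ⟨a, ?_, hkey⟩
  rintro rfl
  -- A would be singular
  obtain ⟨m, hm⟩ := hkey w₀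
  rw [zero_smul, zero_add] at hm
  have hinv : ∀ w, ((A⁻¹ : GL (Fin 2) F) : Matrix (Fin 2) (Fin 2) F) *ᵥ
      ((A : Matrix (Fin 2) (Fin 2) F) *ᵥ w) = w := by
    intro w
    rw [Matrix.mulVec_mulVec, ← Units.val_mul, inv_mul_cancel, Units.val_one, Matrix.one_mulVec]
  have hl0 : l ≠ 0 := by
    rintro rfl
    apply hv
    rw [← hinv v, hl, zero_smul, Matrix.mulVec_zero]
  have h5 : (A : Matrix (Fin 2) (Fin 2) F) *ᵥ (w₀ - (m / l) • v) = 0 := by
    rw [Matrix.mulVec_sub, hm, Matrix.mulVec_smul, hl, smul_smul, div_mul_cancel₀ _ hl0, sub_self]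
  have h6 : w₀ - (m / l) • v = 0 := by rw [← hinv (w₀ - (m / l) • v), h5, Matrix.mulVec_zero]
  have h7 : w₀ = (m / l) • v := sub_eq_zero.mp h6
  rw [h7] at hw₀
  simp only [Pi.smul_apply, smul_eq_mul] at hw₀
  have : v 0 * (m / l * v 1) - v 1 * (m / l * v 0) = 0 := by ring
  rw [this] at hw₀
  exact zero_ne_one hw₀

lemma mul_inv_cancel_mulVec (A : GL (Fin 2) F) (w : Fin 2 → F) :
    (A : Matrix (Fin 2) (Fin 2) F) *ᵥ (((A⁻¹ : GL (Fin 2) F) : Matrix (Fin 2) (Fin 2) F) *ᵥ w)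
      = w := by
  rw [Matrix.mulVec_mulVec, ← Units.val_mul, mul_inv_cancel, Units.val_one, Matrix.one_mulVec]

lemma bor_sol {v : Fin 2 → F} (hv : v ≠ 0) : Group.IsSolvable (bor v) := by
  refine sol_of_commutators ((uni v).comap (bor v).subtype) ?_ ?_
  · rintro ⟨A, hA⟩ ⟨B, hB⟩
    rw [Subgroup.mem_comap]
    change A * B * A⁻¹ * B⁻¹ ∈ uni v
    obtain ⟨a, ha, hAw⟩ := bor_quot hv hA
    obtain ⟨b, hb, hBw⟩ := bor_quot hv hB
    obtain ⟨l, hl⟩ := id hA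
    obtain ⟨k, hk⟩ := id hB
    -- A * B = C * (B * A)
    have hC : A * B * A⁻¹ * B⁻¹ = (A * B) * (B * A)⁻¹ := by group
    rw [hC]
    set D := B * A with hD
    have hDinv : ∀ w, ((D : Matrix (Fin 2) (Fin 2) F)) *ᵥ
      (((D⁻¹ : GL (Fin 2) F) : Matrix (Fin 2) (Fin 2) F) *ᵥ w) = w := mul_inv_cancel_mulVec D
    have hDv : (D : Matrix (Fin 2) (Fin 2) F) *ᵥ v = (l * k) • v := by
      rw [hD, Units.val_mul, ← Matrix.mulVec_mulVec, hl, Matrix.mulVec_smul, hk, smul_smul]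
    have hABv : ((A * B : GL (Fin 2) F) : Matrix (Fin 2) (Fin 2) F) *ᵥ v = (l * k) • v := by
      rw [Units.val_mul, ← Matrix.mulVec_mulVec, hk, Matrix.mulVec_smul, hl, smul_smul, mul_comm]
    have hsame : ∀ w, ∃ m : F, ((A * B : GL (Fin 2) F) : Matrix (Fin 2) (Fin 2) F) *ᵥ w
        = (D : Matrix (Fin 2) (Fin 2) F) *ᵥ w + m • v := by
      intro w
      obtain ⟨m1, h1⟩ := hBw w
      obtain ⟨m2, h2⟩ := hAw w
      refine ⟨b * m2 + m1 * l - a * m1 - m2 * k, ?_⟩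
      rw [hD, Units.val_mul, Units.val_mul, ← Matrix.mulVec_mulVec, ← Matrix.mulVec_mulVec, h1, h2,
        Matrix.mulVec_add, Matrix.mulVec_add, Matrix.mulVec_smul, Matrix.mulVec_smul,
        Matrix.mulVec_smul, Matrix.mulVec_smul, h1, h2, hl, hk]
      module
    have hDiv : ((D⁻¹ : GL (Fin 2) F) : Matrix (Fin 2) (Fin 2) F) *ᵥ ((l * k) • v) = v := by
      rw [← hDv, Matrix.mulVec_mulVec, ← Units.val_mul, inv_mul_cancel, Units.val_one,
        Matrix.one_mulVec]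
    have hlk : l * k ≠ 0 := by
      intro h0
      rw [h0, zero_smul, Matrix.mulVec_zero] at hDiv
      exact hv hDiv.symm
    constructor
    · rw [one_smul, Units.val_mul, ← Matrix.mulVec_mulVec]
      have : ((D⁻¹ : GL (Fin 2) F) : Matrix (Fin 2) (Fin 2) F) *ᵥ v = (l * k)⁻¹ • v := by
        rw [Matrix.mulVec_smul] at hDiv
        conv_rhs => rw [← hDiv]
        rw [smul_smul, inv_mul_cancel₀ hlk, one_smul]
      rw [this, Matrix.mulVec_smul, hABv, smul_smul, inv_mul_cancel₀ hlk, one_smul]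
    · intro w
      obtain ⟨m, hm⟩ := hsame (((D⁻¹ : GL (Fin 2) F) : Matrix (Fin 2) (Fin 2) F) *ᵥ w)
      refine ⟨m, ?_⟩
      rw [one_smul, Units.val_mul, ← Matrix.mulVec_mulVec, hm, hDinv]
  · rintro ⟨A, hA⟩ h1 ⟨B, hB⟩ h2
    apply Subtype.ext
    exact uni_comm A B h1 h2

/-- elements of `bor v` acting by a scalar on the quotient equal to the eigenvalue -/
def par (v : Fin 2 → F) (hv : v ≠ 0) : Subgroup (GL (Fin 2) F) where
  carrier := {A | ∃ l, Un (A : Matrix (Fin 2) (Fin 2) F) l v}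
  mul_mem' := by
    rintro A B ⟨l, h1, h2⟩ ⟨k, h3, h4⟩
    refine ⟨l * k, ?_, fun w => ?_⟩
    · rw [Units.val_mul, ← Matrix.mulVec_mulVec, h3, Matrix.mulVec_smul, h1, smul_smul, mul_comm]
    · obtain ⟨m, hm⟩ := h4 w
      obtain ⟨m', hm'⟩ := h2 w
      refine ⟨k * m' + m * l, ?_⟩
      rw [Units.val_mul, ← Matrix.mulVec_mulVec, hm, Matrix.mulVec_add, Matrix.mulVec_smul,
        Matrix.mulVec_smul, hm', h1]
      module
  one_mem' := ⟨1, by rw [Units.val_one, Matrix.one_mulVec, one_smul], fun w => ⟨0, by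
    rw [Units.val_one, Matrix.one_mulVec, one_smul, zero_smul, add_zero]⟩⟩
  inv_mem' := by
    rintro A ⟨l, h1, h2⟩
    have hinv : ∀ w, ((A⁻¹ : GL (Fin 2) F) : Matrix (Fin 2) (Fin 2) F) *ᵥ
        ((A : Matrix (Fin 2) (Fin 2) F) *ᵥ w) = w := by
      intro w
      rw [Matrix.mulVec_mulVec, ← Units.val_mul, inv_mul_cancel, Units.val_one, Matrix.one_mulVec]
    have hl0 : l ≠ 0 := by
      rintro rfl
      apply hv
      rw [← hinv v, h1, zero_smul, Matrix.mulVec_zero]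
    have h3 : ((A⁻¹ : GL (Fin 2) F) : Matrix (Fin 2) (Fin 2) F) *ᵥ v = l⁻¹ • v := by
      have h4 := hinv v
      rw [h1, Matrix.mulVec_smul] at h4
      conv_rhs => rw [← h4]
      rw [smul_smul, inv_mul_cancel₀ hl0, one_smul]
    refine ⟨l⁻¹, h3, fun w => ?_⟩
    obtain ⟨m, hm⟩ := h2 w
    have h4 := hinv w
    rw [hm, Matrix.mulVec_add, Matrix.mulVec_smul, Matrix.mulVec_smul, h3] at h4
    refine ⟨-(l⁻¹ * m * l⁻¹), ?_⟩
    have h5 : l • (((A⁻¹ : GL (Fin 2) F) : Matrix (Fin 2) (Fin 2) F) *ᵥ w)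
        = w - m • l⁻¹ • v := eq_sub_of_add_eq h4
    have h6 : ((A⁻¹ : GL (Fin 2) F) : Matrix (Fin 2) (Fin 2) F) *ᵥ w
        = l⁻¹ • (w - m • l⁻¹ • v) := by
      rw [← h5, smul_smul, inv_mul_cancel₀ hl0, one_smul]
    rw [h6]
    module

lemma par_le_bor {v : Fin 2 → F} (hv : v ≠ 0) : par v hv ≤ bor v := by
  rintro A ⟨l, h1, -⟩
  exact ⟨l, h1⟩

/-- centralizer of a matrix -/
def cen (M : Matrix (Fin 2) (Fin 2) F) : Subgroup (GL (Fin 2) F) where
  carrier := {A | M * (A : Matrix (Fin 2) (Fin 2) F) = (A : Matrix (Fin 2) (Fin 2) F) * M}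
  mul_mem' := by
    intro A B h1 h2
    simp only [Set.mem_setOf_eq] at *
    rw [Units.val_mul, ← mul_assoc, h1, mul_assoc, h2, mul_assoc]
  one_mem' := by simp
  inv_mem' := by
    intro A h
    simp only [Set.mem_setOf_eq] at *
    have h1 : ((A⁻¹ : GL (Fin 2) F) : Matrix (Fin 2) (Fin 2) F) * (A : Matrix (Fin 2) (Fin 2) F)
        = 1 := by rw [← Units.val_mul, inv_mul_cancel, Units.val_one]
    have h2 : (A : Matrix (Fin 2) (Fin 2) F) * ((A⁻¹ : GL (Fin 2) F) : Matrix (Fin 2) (Fin 2) F)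
        = 1 := by rw [← Units.val_mul, mul_inv_cancel, Units.val_one]
    calc M * ((A⁻¹ : GL (Fin 2) F) : Matrix (Fin 2) (Fin 2) F)
        = ((A⁻¹ : GL (Fin 2) F) : Matrix (Fin 2) (Fin 2) F) * ((A : Matrix (Fin 2) (Fin 2) F) * M)
          * ((A⁻¹ : GL (Fin 2) F) : Matrix (Fin 2) (Fin 2) F) := by
          rw [← mul_assoc ((A⁻¹ : GL (Fin 2) F) : Matrix (Fin 2) (Fin 2) F), h1, one_mul]
      _ = ((A⁻¹ : GL (Fin 2) F) : Matrix (Fin 2) (Fin 2) F) * M := by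
          rw [← h, ← mul_assoc, mul_assoc, h2, mul_one]

lemma cen_sol {M : Matrix (Fin 2) (Fin 2) F} (h : ¬ IsSc M) [Fintype F] [DecidableEq F] :
    Group.IsSolvable (cen M) := by
  apply Group.isSolvable_of_comm
  rintro ⟨A, hA⟩ ⟨B, hB⟩
  apply Subtype.ext
  apply Units.ext
  obtain ⟨c, d, hcd⟩ := (commute_iff h (B : Matrix (Fin 2) (Fin 2) F)).mp hB.symm
  change (A : Matrix (Fin 2) (Fin 2) F) * (B : Matrix (Fin 2) (Fin 2) F)
    = (B : Matrix (Fin 2) (Fin 2) F) * (A : Matrix (Fin 2) (Fin 2) F)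
  have hA' : M * (A : Matrix (Fin 2) (Fin 2) F) = (A : Matrix (Fin 2) (Fin 2) F) * M := hA
  rw [hcd, mul_add, add_mul, Matrix.mul_smul, Matrix.smul_mul, hA']
  congr 1
  exact (Matrix.scalar_commute c (fun r => Commute.all _ _) (A : Matrix (Fin 2) (Fin 2) F)).eq.symm

end Pool.Agent.H302R4
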