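import Mathlib
import Pool.Agent.H302R4.PGLSol

/-!
# An inequality for functions on a group mapping to `PGL(2,F)`
-/

set_option autoImplicit false
set_option linter.unusedSectionVars false

namespace Pool.Agent.H302R4

open Matrix MatrixGroups

universe u v

variable {F : Type u} [Field F] [Fintype F] [DecidableEq F]

lemma isSc_iff {A : GL (Fin 2) F} :
    IsSc (A : Matrix (Fin 2) (Fin 2) F) ↔ ProjGenLinGroup.mk A = 1 := by
  rw [ProjGenLinGroup.mk_eq_one, GeneralLinearGroup.center_eq_range_scalar]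
  constructor
  · rintro ⟨l, hl⟩
    have hl0 : l ≠ 0 := by
      rintro rfl
      have h1 : (A : Matrix (Fin 2) (Fin 2) F) = 0 := by rw [hl]; simp
      have h2 : (A : Matrix (Fin 2) (Fin 2) F)
          * ((A⁻¹ : GL (Fin 2) F) : Matrix (Fin 2) (Fin 2) F) = 1 := by
        rw [← Units.val_mul, mul_inv_cancel, Units.val_one]
      rw [h1, zero_mul] at h2
      exact zero_ne_one h2
    refine ⟨Units.mk0 l hl0, ?_⟩
    apply Units.ext
    rw [hl]; rfl
  · rintro ⟨u, rfl⟩
    exact ⟨u, rfl⟩

/-- membership in the image of a subgroup containing the centre -/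
lemma mem_map_mk {S : Subgroup (GL (Fin 2) F)} (hS : Subgroup.center (GL (Fin 2) F) ≤ S)
    (A : GL (Fin 2) F) : ProjGenLinGroup.mk A ∈ S.map ProjGenLinGroup.mk ↔ A ∈ S := by
  constructor
  · rintro ⟨B, hB, hAB⟩
    rw [ProjGenLinGroup.mk_eq_mk_iff'] at hAB
    obtain ⟨z, hz, rfl⟩ := hAB
    exact mul_mem hB (hS hz)
  · intro h
    exact ⟨A, h, rfl⟩

lemma map_sol {S : Subgroup (GL (Fin 2) F)} (hS : Group.IsSolvable S) :
    Group.IsSolvable (S.map (ProjGenLinGroup.mk (n := Fin 2) (R := F))) :=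
  Group.isSolvable_of_surjective (MonoidHom.subgroupMap_surjective ProjGenLinGroup.mk S)

lemma center_sc {A : GL (Fin 2) F} (hA : A ∈ Subgroup.center (GL (Fin 2) F)) :
    IsSc (A : Matrix (Fin 2) (Fin 2) F) := by
  rw [isSc_iff, ProjGenLinGroup.mk_eq_one]; exact hA

lemma center_le_par {v : Fin 2 → F} (hv : v ≠ 0) :
    Subgroup.center (GL (Fin 2) F) ≤ par v hv := by
  intro A hA
  obtain ⟨l, hl⟩ := center_sc hA
  change ∃ l, Un (A : Matrix (Fin 2) (Fin 2) F) l v
  rw [hl]
  exact ⟨l, scalar_mulVec' l v, fun w => ⟨0, by rw [scalar_mulVec', zero_smul, add_zero]⟩⟩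

lemma center_le_bor {v : Fin 2 → F} (hv : v ≠ 0) :
    Subgroup.center (GL (Fin 2) F) ≤ bor v :=
  (center_le_par hv).trans (par_le_bor hv)

lemma center_le_cen (M : Matrix (Fin 2) (Fin 2) F) :
    Subgroup.center (GL (Fin 2) F) ≤ cen M := by
  intro A hA
  obtain ⟨l, hl⟩ := center_sc hA
  change M * (A : Matrix (Fin 2) (Fin 2) F) = (A : Matrix (Fin 2) (Fin 2) F) * M
  rw [hl]
  exact (Matrix.scalar_commute l (fun r => Commute.all _ _) M).eq.symm

lemma sol_of_le {G : Type*} [Group G] {A B : Subgroup G} (h : A ≤ B) (hB : Group.IsSolvable B) :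
    Group.IsSolvable A :=
  Group.isSolvable_of_isSolvable_injective (Subgroup.inclusion_injective h)

variable {G : Type v} [Group G] [Fintype G]

open Classical in
/-- **Core inequality.** -/
theorem core_ineq (f : G →* PGL(2, F)) (t : G → ℝ)
    (hpos : ∀ V : Subgroup PGL(2, F), Group.IsSolvable V → 0 ≤ ∑ g : G, if f g ∈ V then t g else 0) :
    0 ≤ 2 * ∑ g : G, t g + (Fintype.card F : ℝ) * ((Fintype.card F : ℝ) + 1)
      * ∑ g : G, if f g = 1 then t g else 0 := by
  set q : ℝ := (Fintype.card F : ℝ) with hq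
  have hq1 : 1 < q := by
    have : 1 < Fintype.card F := Fintype.one_lt_card
    rw [hq]; exact_mod_cast this
  -- lifts
  choose A hA using fun g : G => ProjGenLinGroup.mk_surjective (n := Fin 2) (R := F) (f g)
  -- sum over the Borel subgroups
  have hE : 0 ≤ ∑ g : G, t g * (eCard (A g : Matrix (Fin 2) (Fin 2) F) : ℝ) := by
    have h1 : ∀ g : G, t g * (eCard (A g : Matrix (Fin 2) (Fin 2) F) : ℝ)
        = ∑ w : Fin 2 → F, if w ≠ 0 then (if f g ∈ (bor w).map ProjGenLinGroup.mk then t g else 0)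
          else 0 := by
      intro g
      rw [eCard, Finset.card_filter]
      push_cast
      rw [Finset.mul_sum]
      refine Finset.sum_congr rfl fun w _ => ?_
      by_cases hw : w = 0
      · simp [hw]
      · rw [if_pos hw, ← hA g, mem_map_mk (center_le_bor hw), mem_bor]
        simp [hw]
    rw [Finset.sum_congr rfl (fun g _ => h1 g), Finset.sum_comm]
    refine Finset.sum_nonneg fun w _ => ?_
    by_cases hw : w = 0
    · simp [hw]
    · simp only [if_pos hw]
      exact hpos _ (map_sol (bor_sol hw))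
  have hP : 0 ≤ ∑ g : G, t g * (pCard (A g : Matrix (Fin 2) (Fin 2) F) : ℝ) := by
    have h1 : ∀ g : G, t g * (pCard (A g : Matrix (Fin 2) (Fin 2) F) : ℝ)
        = ∑ w : Fin 2 → F, if hw : w ≠ 0 then
          (if f g ∈ (par w hw).map ProjGenLinGroup.mk then t g else 0) else 0 := by
      intro g
      rw [pCard, Finset.card_filter]
      push_cast
      rw [Finset.mul_sum]
      refine Finset.sum_congr rfl fun w _ => ?_
      by_cases hw : w = 0
      · simp [hw]
      · rw [dif_pos hw, ← hA g, mem_map_mk (center_le_par hw)]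
        have : (A g ∈ par w hw) ↔ ∃ l, Un (A g : Matrix (Fin 2) (Fin 2) F) l w := Iff.rfl
        rw [this]
        simp [hw]
    rw [Finset.sum_congr rfl (fun g _ => h1 g), Finset.sum_comm]
    refine Finset.sum_nonneg fun w _ => ?_
    by_cases hw : w = 0
    · simp [hw]
    · simp only [dif_pos hw]
      exact hpos _ (map_sol (sol_of_le (par_le_bor hw) (bor_sol hw)))
  have hN : 0 ≤ ∑ g : G, t g * ((Finset.univ.filter fun M : Matrix (Fin 2) (Fin 2) F =>
      IsEll M ∧ M * (A g : Matrix (Fin 2) (Fin 2) F) = (A g : Matrix (Fin 2) (Fin 2) F) * M).card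
        : ℝ) := by
    have h1 : ∀ g : G, t g * ((Finset.univ.filter fun M : Matrix (Fin 2) (Fin 2) F =>
      IsEll M ∧ M * (A g : Matrix (Fin 2) (Fin 2) F) = (A g : Matrix (Fin 2) (Fin 2) F) * M).card
        : ℝ) = ∑ M : Matrix (Fin 2) (Fin 2) F, if IsEll M then
          (if f g ∈ (cen M).map ProjGenLinGroup.mk then t g else 0) else 0 := by
      intro g
      rw [Finset.card_filter]
      push_cast
      rw [Finset.mul_sum]
      refine Finset.sum_congr rfl fun M _ => ?_
      by_cases hM : IsEll M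
      · rw [if_pos hM, ← hA g, mem_map_mk (center_le_cen M)]
        have : (A g ∈ cen M) ↔ M * (A g : Matrix (Fin 2) (Fin 2) F)
          = (A g : Matrix (Fin 2) (Fin 2) F) * M := Iff.rfl
        rw [this]
        simp [hM]
      · simp [hM]
    rw [Finset.sum_congr rfl (fun g _ => h1 g), Finset.sum_comm]
    refine Finset.sum_nonneg fun M _ => ?_
    by_cases hM : IsEll M
    · simp only [if_pos hM]
      exact hpos _ (map_sol (cen_sol hM.not_sc))
    · simp [hM]
  -- identities
  set T := ∑ g : G, t g with hT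
  set L := ∑ g : G, t g * (if IsEll (A g : Matrix (Fin 2) (Fin 2) F) then (1 : ℝ) else 0) with hL
  set S := ∑ g : G, t g * (if IsSc (A g : Matrix (Fin 2) (Fin 2) F) then (1 : ℝ) else 0) with hS
  have hS' : (∑ g : G, if f g = 1 then t g else 0) = S := by
    rw [hS]
    refine Finset.sum_congr rfl fun g _ => ?_
    have h1 : f g = 1 ↔ IsSc (A g : Matrix (Fin 2) (Fin 2) F) := by rw [isSc_iff, hA g]
    by_cases h : f g = 1
    · rw [if_pos h, if_pos (h1.mp h), mul_one]
    · rw [if_neg h, if_neg (fun h' => h (h1.mpr h')), mul_zero]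
  have hEP : (∑ g : G, t g * (eCard (A g : Matrix (Fin 2) (Fin 2) F) : ℝ))
      + (∑ g : G, t g * (pCard (A g : Matrix (Fin 2) (Fin 2) F) : ℝ))
      = 2 * (q - 1) * (T - L + q * S) := by
    rw [← Finset.sum_add_distrib, hT, hL, hS, Finset.mul_sum (a := q), ← Finset.sum_sub_distrib,
      ← Finset.sum_add_distrib, Finset.mul_sum]
    refine Finset.sum_congr rfl fun g _ => ?_
    have h1 := congrArg (Int.cast : ℤ → ℝ) (e_add_p_int (A g : Matrix (Fin 2) (Fin 2) F))
    push_cast at h1
    rw [← mul_add, h1, ← hq]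
    ring
  have hNN : (∑ g : G, t g * ((Finset.univ.filter fun M : Matrix (Fin 2) (Fin 2) F =>
      IsEll M ∧ M * (A g : Matrix (Fin 2) (Fin 2) F) = (A g : Matrix (Fin 2) (Fin 2) F) * M).card
        : ℝ)) = (ellCard F : ℝ) * S + (q ^ 2 - q) * L := by
    rw [hL, hS, Finset.mul_sum, Finset.mul_sum, ← Finset.sum_add_distrib]
    refine Finset.sum_congr rfl fun g _ => ?_
    have h1 := congrArg (Int.cast : ℤ → ℝ) (comm_count (A g : Matrix (Fin 2) (Fin 2) F))
    push_cast at h1
    rw [h1, ← hq]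
    ring
  have hX : 2 * (ellCard F : ℝ) = (q ^ 2 - q) ^ 2 := by
    have h1 := congrArg (Int.cast : ℤ → ℝ) (two_mul_ellCard (F := F))
    push_cast at h1
    rw [h1, ← hq]
  rw [hS']
  have hfin : q * (q - 1) * (2 * T + q * (q + 1) * S) = q * ((∑ g : G, t g *
      (eCard (A g : Matrix (Fin 2) (Fin 2) F) : ℝ))
      + (∑ g : G, t g * (pCard (A g : Matrix (Fin 2) (Fin 2) F) : ℝ))) + 2 * (∑ g : G, t g *
      ((Finset.univ.filter fun M : Matrix (Fin 2) (Fin 2) F =>
      IsEll M ∧ M * (A g : Matrix (Fin 2) (Fin 2) F) = (A g : Matrix (Fin 2) (Fin 2) F) * M).card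
        : ℝ)) := by
    rw [hEP, hNN]
    linear_combination (-S) * hX
  have hpos2 : 0 < q * (q - 1) := mul_pos (by linarith) (by linarith)
  by_contra hneg
  push Not at hneg
  have h1 : q * (q - 1) * (2 * T + q * (q + 1) * S) < 0 := mul_neg_of_pos_of_neg hpos2 hneg
  rw [hfin] at h1
  have h2 : 0 ≤ q * ((∑ g : G, t g * (eCard (A g : Matrix (Fin 2) (Fin 2) F) : ℝ))
      + (∑ g : G, t g * (pCard (A g : Matrix (Fin 2) (Fin 2) F) : ℝ))) :=
    mul_nonneg (by linarith) (add_nonneg hE hP)
  linarith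

end Pool.Agent.H302R4
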