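import Mathlib
import Pool.Agent.H302R4.PGLCore
import Pool.Agent.H302R3.Integral

/-!
# Groups mapping to a product of groups `PGL(2,F)` with solvable kernel
-/

set_option autoImplicit false
set_option linter.unusedSectionVars false

namespace Pool.Agent.H302R4

open Matrix MatrixGroups Pool.Agent.H302R3

universe u v w

lemma sum_subtype_re {G : Type v} [Group G] [Fintype G] (U : Subgroup G) [DecidablePred (· ∈ U)]
    (θ : G → ℂ) : ∑ᶠ x : U, θ x = ∑ g : G, if g ∈ U then θ g else 0 := by
  classical
  have : Fintype U := Fintype.ofFinite _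
  rw [finsum_eq_sum_of_fintype, ← Finset.sum_filter]
  exact (Finset.sum_subtype (Finset.univ.filter fun g => g ∈ U) (by simp) (fun g => θ g)).symm

theorem main_ind {ι : Type w} [DecidableEq ι] (F : ι → Type u) [∀ i, Field (F i)]
    [∀ i, Finite (F i)] (X : ∀ i, Subgroup PGL(2, F i)) (r : ℕ)
    (hlt : ∀ i, r * (Nat.card (F i) * (Nat.card (F i) + 1)) < 2 * Nat.card (X i))
    (s : Finset ι) : ∀ (G : Type v) [Group G] [Finite G] (f : ∀ i, G →* PGL(2, F i))
      (θ : G → ℂ), IsSolHeilbronn θ → θ 1 = r →
      Group.IsSolvable (⨅ i ∈ s, (f i).ker : Subgroup G) →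
      (∀ x : ∀ i, PGL(2, F i), (∀ i, x i ∈ X i) → ∃ g, ∀ i ∈ s, f i g = x i) →
      ∃ n : ℕ, ∑ᶠ g : G, θ g = n * Nat.card G := by
  classical
  induction s using Finset.induction_on with
  | empty =>
    intro G _ _ f θ hθ hr hsol _
    have h0 : (⨅ i ∈ (∅ : Finset ι), (f i).ker : Subgroup G) = ⊤ := by simp
    have h1 : Group.IsSolvable (⊤ : Subgroup G) := by rw [← h0]; exact hsol
    have h2 : Group.IsSolvable G :=
      Group.isSolvable_of_surjective (f := (⊤ : Subgroup G).subtype) (fun g => ⟨⟨g, trivial⟩, rfl⟩)
    have : Fintype G := Fintype.ofFinite _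
    obtain ⟨n, hn⟩ := hθ.mult_hom h2 (MonoidHom.id G) 1
    refine ⟨n, ?_⟩
    rw [finsum_eq_sum_of_fintype, ← hn]
    simp
  | insert j s hj ih =>
    intro G _ _ f θ hθ hr hsol hX
    have : Fintype G := Fintype.ofFinite _
    have : Fintype (F j) := Fintype.ofFinite _
    have hcardF : Nat.card (F j) = Fintype.card (F j) := Nat.card_eq_fintype_card
    -- positivity on preimages of solvable subgroups
    have hpos : ∀ V : Subgroup PGL(2, F j), Group.IsSolvable V →
        0 ≤ ∑ g : G, if f j g ∈ V then (θ g).re else 0 := by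
      intro V hV
      set U := V.comap (f j) with hU
      have hker : Group.IsSolvable (⨅ i ∈ s, ((f i).comp U.subtype).ker : Subgroup U) := by
        set K := (⨅ i ∈ s, ((f i).comp U.subtype).ker : Subgroup U) with hK
        have hKmem : ∀ x : U, x ∈ K ↔ ∀ i ∈ s, f i x = 1 := by
          intro x
          simp only [hK, Subgroup.mem_iInf, MonoidHom.mem_ker, MonoidHom.comp_apply,
            Subgroup.coe_subtype]
        let K₀ := (⨅ i ∈ insert j s, (f i).ker : Subgroup G)
        have hK₀ : ∀ x : G, x ∈ K₀ ↔ ∀ i ∈ insert j s, f i x = 1 := by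
          intro x
          simp only [K₀, Subgroup.mem_iInf, MonoidHom.mem_ker]
        let a : K₀ →* K :=
          { toFun := fun x => ⟨⟨x.1, by
                rw [hU, Subgroup.mem_comap, (hK₀ x.1).mp x.2 j (Finset.mem_insert_self _ _)]
                exact one_mem V⟩, (hKmem _).mpr fun i hi =>
                  (hK₀ x.1).mp x.2 i (Finset.mem_insert_of_mem hi)⟩
            map_one' := rfl
            map_mul' := fun _ _ => rfl }
        let b : K →* V :=
          { toFun := fun x => ⟨f j x.1.1, x.1.2⟩
            map_one' := Subtype.ext (map_one (f j))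
            map_mul' := fun x y => Subtype.ext (map_mul (f j) _ _) }
        have h1 : Group.IsSolvable K₀ := hsol
        refine Group.isSolvable_of_ker_le_range a b ?_
        intro x hx
        have hx' : f j x.1.1 = 1 := congrArg Subtype.val hx
        refine ⟨⟨x.1.1, (hK₀ _).mpr fun i hi => ?_⟩, rfl⟩
        rcases Finset.mem_insert.mp hi with rfl | hi
        · exact hx'
        · exact (hKmem x.1).mp x.2 i hi
      obtain ⟨n, hn⟩ := ih U (fun i => (f i).comp U.subtype) (fun x => θ x)
        (hθ.comp U.subtype) hr hker (by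
          intro x hx
          obtain ⟨g, hg⟩ := hX (Function.update x j 1) (by
            intro i
            by_cases hij : i = j
            · subst hij
              rw [Function.update_self]
              exact one_mem _
            · rw [Function.update_of_ne hij]
              exact hx i)
          refine ⟨⟨g, ?_⟩, fun i hi => ?_⟩
          · rw [hU, Subgroup.mem_comap, hg j (Finset.mem_insert_self _ _), Function.update_self]
            exact one_mem V
          · have hij : i ≠ j := fun h => hj (h ▸ hi)
            change f i g = x i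
            rw [hg i (Finset.mem_insert_of_mem hi), Function.update_of_ne hij])
      rw [sum_subtype_re U θ] at hn
      have h2 := congrArg Complex.re hn
      rw [Complex.re_sum] at h2
      have h3 : ∀ g : G, (if g ∈ U then θ g else 0 : ℂ).re
          = if f j g ∈ V then (θ g).re else 0 := by
        intro g
        by_cases h : f j g ∈ V
        · rw [if_pos h, if_pos (show g ∈ U from h)]
        · rw [if_neg h, if_neg (show g ∉ U from h), Complex.zero_re]
      rw [Finset.sum_congr rfl (fun g _ => h3 g)] at h2
      rw [h2]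
      have h4 : ((n : ℂ) * (Nat.card U : ℂ)).re = ((n * Nat.card U : ℕ) : ℝ) := by
        rw [← Nat.cast_mul, Complex.natCast_re]
      rw [h4]
      positivity
    have hcore := core_ineq (f j) (fun g => (θ g).re) hpos
    obtain ⟨m, hm⟩ := hθ.int_mult_one
    -- bounds
    have hle : ∀ g, (θ g).re ≤ r := by
      intro g
      have := (Complex.re_le_norm _).trans (hθ.norm_le g)
      rwa [hr, Complex.natCast_re] at this
    have hS : (∑ g : G, if f j g = 1 then (θ g).re else 0) ≤ (Nat.card (f j).ker : ℝ) * r := by
      have h1 : (∑ g : G, if f j g = 1 then (θ g).re else 0)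
          ≤ ∑ g : G, if f j g = 1 then (r : ℝ) else 0 := by
        refine Finset.sum_le_sum fun g _ => ?_
        split_ifs
        · exact hle g
        · exact le_refl _
      refine h1.trans (le_of_eq ?_)
      rw [← Finset.sum_filter, Finset.sum_const, nsmul_eq_mul]
      congr 2
      rw [← Fintype.card_subtype, ← Nat.card_eq_fintype_card]
      exact Nat.card_congr (Equiv.subtypeEquivRight fun g => (MonoidHom.mem_ker).symm)
    have hcard : Nat.card (f j).ker * Nat.card (X j) ≤ Nat.card G := by
      have h1 : Nat.card G = Nat.card (f j).ker * Nat.card (f j).range := by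
        rw [← Nat.card_congr (QuotientGroup.quotientKerEquivRange (f j)).toEquiv, mul_comm]
        exact Subgroup.card_eq_card_quotient_mul_card_subgroup _
      rw [h1]
      apply Nat.mul_le_mul_left
      have h2 : X j ≤ (f j).range := by
        intro x hx
        obtain ⟨g, hg⟩ := hX (fun i => if h : i = j then h ▸ x else 1) (by
          intro i
          by_cases h : i = j
          · subst h; simpa using hx
          · simp only [h, dif_neg, not_false_eq_true]
            exact one_mem _)
        refine ⟨g, ?_⟩
        rw [hg j (Finset.mem_insert_self _ _)]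
        change (if h : j = j then h ▸ x else 1) = x
        rw [dif_pos rfl]
      exact Nat.card_le_card_of_injective _ (Subgroup.inclusion_injective h2)
    have hm0 : 0 ≤ m := by
      by_contra hneg
      push Not at hneg
      have hm1 : m ≤ -1 := by omega
      have hT : ∑ g : G, (θ g).re = m * Nat.card G := by
        rw [finsum_eq_sum_of_fintype] at hm
        have h2 := congrArg Complex.re hm
        rw [Complex.re_sum] at h2
        rw [h2]
        have : ((m : ℂ) * (Nat.card G : ℂ)) = ((m * Nat.card G : ℤ) : ℂ) := by push_cast; rfl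
        rw [this, Complex.intCast_re]
        push_cast; rfl
      rw [hT] at hcore
      have hG : (0 : ℝ) < Nat.card G := by exact_mod_cast Nat.card_pos
      have hk : (0 : ℝ) < Nat.card (f j).ker := by exact_mod_cast Nat.card_pos
      have h1 : (m : ℝ) ≤ -1 := by exact_mod_cast hm1
      have h2 : (m : ℝ) * Nat.card G ≤ -1 * Nat.card G := mul_le_mul_of_nonneg_right h1 hG.le
      have h3 : (r : ℝ) * ((Fintype.card (F j) : ℝ) * ((Fintype.card (F j) : ℝ) + 1))
          < 2 * Nat.card (X j) := by
        have := hlt j
        rw [hcardF] at this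
        exact_mod_cast this
      have h4 : (Nat.card (f j).ker : ℝ) * Nat.card (X j) ≤ Nat.card G := by
        exact_mod_cast hcard
      have hq : (0 : ℝ) ≤ (Fintype.card (F j) : ℝ) * ((Fintype.card (F j) : ℝ) + 1) := by
        positivity
      have h5 := mul_le_mul_of_nonneg_left hS hq
      have h6 := mul_lt_mul_of_pos_left h3 hk
      nlinarith
    obtain ⟨n, rfl⟩ := Int.eq_ofNat_of_zero_le hm0
    exact ⟨n, by rw [hm]; push_cast; rfl⟩

/-- Main theorem. -/
theorem pgl_main {ι : Type w} [Finite ι] (F : ι → Type u) [∀ i, Field (F i)]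
    [∀ i, Finite (F i)] (X : ∀ i, Subgroup PGL(2, F i)) {G : Type v} [Group G] [Finite G]
    (f : ∀ i, G →* PGL(2, F i)) (hsol : Group.IsSolvable (⨅ i, (f i).ker : Subgroup G))
    (hX : ∀ x : ∀ i, PGL(2, F i), (∀ i, x i ∈ X i) → ∃ g, ∀ i, f i g = x i)
    {θ : G → ℂ} (hθ : IsSolHeilbronn θ) {r : ℕ} (hr : θ 1 = r)
    (hlt : ∀ i, r * (Nat.card (F i) * (Nat.card (F i) + 1)) < 2 * Nat.card (X i))
    (χ : G →* ℂˣ) :
    ∃ n : ℕ, ∑ᶠ g : G, θ g * (((χ g)⁻¹ : ℂˣ) : ℂ) = n * Nat.card G := by
  classical
  have : Fintype ι := Fintype.ofFinite _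
  refine main_ind F X r hlt Finset.univ G f _ (hθ.twist χ) (by simp [hr]) ?_ ?_
  · have h0 : (⨅ i ∈ (Finset.univ : Finset ι), (f i).ker : Subgroup G) = ⨅ i, (f i).ker := by simp
    rw [h0]; exact hsol
  · intro x hx
    obtain ⟨g, hg⟩ := hX x hx
    exact ⟨g, fun i _ => hg i⟩

end Pool.Agent.H302R4
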